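import Pool.Agent.Helper91.LC.Defs

/-!
# LC-8a: the logarithm of the derivative of the local inverse
-/

set_option autoImplicit false

namespace Pool.Agent.Helper57.LC

open Complex Metric Set Filter Topology
open Pool.Agent.Helper91.LC

/-- derivative of the local inverse -/
theorem deriv_mul {F f : ℂ → ℂ} (hG : Good F) (hI : Inv F f) {v : ℂ}
    (hv : v ∈ ball (0 : ℂ) (√3 / 4)) : f v ∈ ball (0 : ℂ) 1 ∧ deriv F (f v) * deriv f v = 1 := by
  have h3 : (1 : ℝ) / √3 < 1 := by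
    have h1 : (1 : ℝ) < √3 := by
      rw [Real.lt_sqrt (by norm_num)]
      norm_num
    rw [div_lt_one (by linarith)]
    exact h1
  have hfv : f v ∈ ball (0 : ℂ) 1 := by
    rw [mem_ball_zero_iff]
    exact (hI.lt v hv).trans h3
  refine ⟨hfv, ?_⟩
  have hd1 : HasDerivAt f (deriv f v) v :=
    (hI.diff.differentiableAt (isOpen_ball.mem_nhds hv)).hasDerivAt
  have hd2 : HasDerivAt F (deriv F (f v)) (f v) :=
    (hG.diff.differentiableAt (isOpen_ball.mem_nhds hfv)).hasDerivAt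
  have hd3 : HasDerivAt (F ∘ f) (deriv F (f v) * deriv f v) v := hd2.comp v hd1
  have hd4 : HasDerivAt (F ∘ f) 1 v := by
    refine (hasDerivAt_id v).congr_of_eventuallyEq ?_
    filter_upwards [isOpen_ball.mem_nhds hv] with w hw
    exact hI.eq w hw
  exact hd3.unique hd4

theorem exists_log {F f : ℂ → ℂ} (hG : Good F) (hI : Inv F f) : ∃ h : ℂ → ℂ,
    DifferentiableOn ℂ h (ball 0 (√3 / 4)) ∧ h 0 = 0 ∧ deriv h 0 = 0 ∧
    ‖deriv (deriv h) 0‖ ≤ 2 ∧
    ∀ v ∈ ball (0 : ℂ) (√3 / 4), Complex.exp (h v) = deriv f v := by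
  have hR : (0 : ℝ) < √3 / 4 := by positivity
  set R : ℝ := √3 / 4 with hRdef
  set B : Set ℂ := ball (0 : ℂ) R with hB
  have hBo : IsOpen B := isOpen_ball
  have h0B : (0 : ℂ) ∈ B := mem_ball_self hR
  have hmul : ∀ v ∈ B, f v ∈ ball (0 : ℂ) 1 ∧ deriv F (f v) * deriv f v = 1 :=
    fun v hv => deriv_mul hG hI hv
  have hne : ∀ v ∈ B, deriv f v ≠ 0 := by
    intro v hv h0
    have := (hmul v hv).2
    rw [h0, mul_zero] at this
    exact zero_ne_one this
  have hf1 : deriv f 0 = 1 := by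
    have := (hmul 0 h0B).2
    rw [hI.zero, hG.one, one_mul] at this
    exact this
  have hdf : DifferentiableOn ℂ (deriv f) B := hI.diff.deriv hBo
  have hddf : DifferentiableOn ℂ (deriv (deriv f)) B := hdf.deriv hBo
  -- the primitive of `f'' / f'`
  have hex : DifferentiableOn ℂ (fun v => deriv (deriv f) v / deriv f v) B :=
    hddf.div hdf hne
  obtain ⟨h, hh0, hh⟩ := (hex.isExactOn_ball).with_val_at 0 0
  have hhd : DifferentiableOn ℂ h B := fun v hv => (hh v hv).differentiableAt.differentiableWithinAt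
  have hexp : ∀ v ∈ B, Complex.exp (h v) = deriv f v := by
    have hconst : ∀ v ∈ B, deriv f v * Complex.exp (-h v) = 1 := by
      intro v hv
      have hder : ∀ w ∈ B, HasDerivAt (fun w => deriv f w * Complex.exp (-h w)) 0 w := by
        intro w hw
        have h1 : HasDerivAt (deriv f) (deriv (deriv f) w) w :=
          (hdf.differentiableAt (hBo.mem_nhds hw)).hasDerivAt
        have h2 := (hh w hw).neg.cexp
        have h3 := h1.mul h2
        have h5 : deriv (deriv f) w * Complex.exp (-h w) +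
            deriv f w * (Complex.exp (-h w) * -(deriv (deriv f) w / deriv f w)) = 0 := by
          have h6 : deriv f w * (deriv (deriv f) w / deriv f w) = deriv (deriv f) w :=
            mul_div_cancel₀ _ (hne w hw)
          linear_combination -Complex.exp (-h w) * h6
        have h7 : HasDerivAt (fun w => deriv f w * Complex.exp (-h w)) (deriv (deriv f) w *
            Complex.exp (-h w) + deriv f w * (Complex.exp (-h w) *
              -(deriv (deriv f) w / deriv f w))) w := h3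
        rw [h5] at h7
        exact h7
      have h4 : deriv f v * Complex.exp (-h v) = deriv f 0 * Complex.exp (-h 0) := by
        refine IsOpen.is_const_of_deriv_eq_zero (𝕜 := ℂ) (f := fun w => deriv f w * Complex.exp (-h w))
          hBo (convex_ball 0 R).isPreconnected ?_ ?_ hv h0B
        · intro w hw
          exact (hder w hw).differentiableAt.differentiableWithinAt
        · intro w hw
          exact (hder w hw).deriv
      rw [h4, hf1, hh0]
      simp
    intro v hv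
    have h1 := hconst v hv
    rw [Complex.exp_neg] at h1
    have h2 : Complex.exp (h v) ≠ 0 := Complex.exp_ne_zero _
    field_simp at h1
    exact h1.symm
  -- the inequality `Re h ≥ - |f|² / (1 - |f|²)`
  have hineq : ∀ v ∈ B, -(‖f v‖ ^ 2 / (1 - ‖f v‖ ^ 2)) ≤ (h v).re := by
    intro v hv
    obtain ⟨h1, h2⟩ := hmul v hv
    rw [mem_ball_zero_iff] at h1
    have h3 : 0 < 1 - ‖f v‖ ^ 2 := by nlinarith [norm_nonneg (f v)]
    have h4 := hG.bd (f v) (mem_ball_zero_iff.2 h1)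
    have h5 : ‖deriv F (f v)‖ * ‖deriv f v‖ = 1 := by rw [← norm_mul, h2, norm_one]
    have h6 : 1 - ‖f v‖ ^ 2 ≤ ‖deriv f v‖ := by
      have h7 : 0 ≤ ‖deriv f v‖ := norm_nonneg _
      calc 1 - ‖f v‖ ^ 2 = ‖deriv f v‖ * (‖deriv F (f v)‖ * (1 - ‖f v‖ ^ 2)) := by
            rw [← mul_assoc, mul_comm ‖deriv f v‖, h5, one_mul]
        _ ≤ ‖deriv f v‖ * 1 := mul_le_mul_of_nonneg_left h4 h7
        _ = ‖deriv f v‖ := mul_one _
    rw [← hexp v hv, Complex.norm_exp] at h6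
    have h7 : Real.log (1 - ‖f v‖ ^ 2) ≤ (h v).re := by
      rw [← Real.log_exp (h v).re]
      exact Real.log_le_log h3 h6
    have h8 := Real.one_sub_inv_le_log_of_pos h3
    have h9 : -(‖f v‖ ^ 2 / (1 - ‖f v‖ ^ 2)) = 1 - (1 - ‖f v‖ ^ 2)⁻¹ := by
      field_simp
      ring
    rw [h9]
    exact h8.trans h7
  -- difference quotients
  set q := dslope f 0 with hq
  set g := dslope h 0 with hg
  set g1 := dslope g 0 with hg1
  have hqd : DifferentiableOn ℂ q B := (Complex.differentiableOn_dslope (hBo.mem_nhds h0B)).2 hI.diff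
  have hgd : DifferentiableOn ℂ g B := (Complex.differentiableOn_dslope (hBo.mem_nhds h0B)).2 hhd
  have hg1d : DifferentiableOn ℂ g1 B := (Complex.differentiableOn_dslope (hBo.mem_nhds h0B)).2 hgd
  have hfq : ∀ v, f v = v * q v := by
    intro v
    have := sub_smul_dslope f 0 v
    rw [hI.zero, sub_zero, sub_zero, smul_eq_mul] at this
    exact this.symm
  have hhg : ∀ v, h v = v * g v := by
    intro v
    have := sub_smul_dslope h 0 v
    rw [hh0, sub_zero, sub_zero, smul_eq_mul] at this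
    exact this.symm
  have hq0 : q 0 = 1 := by rw [hq, dslope_same, hf1]
  have hcq : ContinuousAt q 0 := (hqd.differentiableAt (hBo.mem_nhds h0B)).continuousAt
  have hcg : ContinuousAt g 0 := (hgd.differentiableAt (hBo.mem_nhds h0B)).continuousAt
  have hcg1 : ContinuousAt g1 0 := (hg1d.differentiableAt (hBo.mem_nhds h0B)).continuousAt
  -- rays
  have hray : ∀ ζ : ℂ, Tendsto (fun t : ℝ => (t : ℂ) * ζ) (𝓝[>] 0) (𝓝 0) := by
    intro ζ
    have h1 : Continuous (fun t : ℝ => (t : ℂ) * ζ) := by fun_prop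
    have h2 := h1.tendsto 0
    simp only [ofReal_zero, zero_mul] at h2
    exact h2.mono_left nhdsWithin_le_nhds
  have ht0 : Tendsto (fun t : ℝ => t) (𝓝[>] 0) (𝓝 0) := tendsto_id.mono_left nhdsWithin_le_nhds
  have hnq : ∀ ζ : ℂ, Tendsto (fun t : ℝ => ‖q ((t : ℂ) * ζ)‖ ^ 2) (𝓝[>] 0) (𝓝 1) := by
    intro ζ
    have h1 := ((hcq.tendsto.comp (hray ζ)).norm).pow 2
    rw [hq0] at h1
    simpa using h1
  have hnf : ∀ (ζ : ℂ), ‖ζ‖ = 1 → ∀ t : ℝ, 0 < t →
      ‖f ((t : ℂ) * ζ)‖ ^ 2 = t ^ 2 * ‖q ((t : ℂ) * ζ)‖ ^ 2 := by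
    intro ζ hζ t ht
    rw [hfq, norm_mul, norm_mul, hζ, mul_one, Complex.norm_real, Real.norm_of_nonneg ht.le]
    ring
  have hev : ∀ ζ : ℂ, ∀ᶠ t : ℝ in 𝓝[>] (0 : ℝ), 0 < t ∧ (t : ℂ) * ζ ∈ B := by
    intro ζ
    have h1 : ∀ᶠ t : ℝ in 𝓝[>] (0 : ℝ), (t : ℂ) * ζ ∈ B :=
      (hray ζ).eventually (hBo.mem_nhds h0B)
    filter_upwards [h1, self_mem_nhdsWithin] with t ht ht'
    exact ⟨ht', ht⟩
  have hden : ∀ ζ : ℂ, Tendsto (fun t : ℝ => 1 - t ^ 2 * ‖q ((t : ℂ) * ζ)‖ ^ 2) (𝓝[>] 0) (𝓝 1) := by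
    intro ζ
    have h1 := (tendsto_const_nhds (x := (1 : ℝ))).sub (((ht0.pow 2)).mul (hnq ζ))
    simpa using h1
  have hquot : ∀ ζ : ℂ, Tendsto (fun t : ℝ => ‖q ((t : ℂ) * ζ)‖ ^ 2 /
      (1 - t ^ 2 * ‖q ((t : ℂ) * ζ)‖ ^ 2)) (𝓝[>] 0) (𝓝 1) := by
    intro ζ
    have h1 := (hnq ζ).div (hden ζ) one_ne_zero
    rw [div_one] at h1
    exact h1
  -- first order
  have hg0 : g 0 = 0 := by
    by_contra hne0
    have hpos : 0 < ‖g 0‖ := norm_pos_iff.2 hne0
    set ζ : ℂ := -((starRingEnd ℂ) (g 0)) / ‖g 0‖ with hζ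
    have hζ1 : ‖ζ‖ = 1 := by
      rw [hζ, norm_div, norm_neg, RCLike.norm_conj, Complex.norm_real, norm_norm,
        div_self hpos.ne']
    have hζ2 : ζ * g 0 = -(‖g 0‖ : ℂ) := by
      rw [hζ, div_mul_eq_mul_div, neg_mul, mul_comm, Complex.mul_conj, Complex.normSq_eq_norm_sq]
      push_cast
      have : (‖g 0‖ : ℂ) ≠ 0 := by exact_mod_cast hpos.ne'
      field_simp
    have hl : Tendsto (fun t : ℝ => (ζ * g ((t : ℂ) * ζ)).re) (𝓝[>] 0) (𝓝 (ζ * g 0).re) := by
      have h1 : Tendsto (fun t : ℝ => ζ * g ((t : ℂ) * ζ)) (𝓝[>] 0) (𝓝 (ζ * g 0)) :=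
        tendsto_const_nhds.mul (hcg.tendsto.comp (hray ζ))
      exact (Complex.continuous_re.tendsto _).comp h1
    have hr : Tendsto (fun t : ℝ => -(t * (‖q ((t : ℂ) * ζ)‖ ^ 2 /
        (1 - t ^ 2 * ‖q ((t : ℂ) * ζ)‖ ^ 2)))) (𝓝[>] 0) (𝓝 0) := by
      have h1 := (ht0.mul (hquot ζ)).neg
      simpa using h1
    have hle := le_of_tendsto_of_tendsto hr hl (by
      filter_upwards [hev ζ] with t ht
      have h1 := hineq _ ht.2
      rw [hnf ζ hζ1 t ht.1, hhg] at h1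
      have h2 : ((t : ℂ) * ζ * g ((t : ℂ) * ζ)).re = t * (ζ * g ((t : ℂ) * ζ)).re := by
        rw [mul_assoc, Complex.re_ofReal_mul]
      rw [h2] at h1
      have h3 : -(t ^ 2 * ‖q ((t : ℂ) * ζ)‖ ^ 2 / (1 - t ^ 2 * ‖q ((t : ℂ) * ζ)‖ ^ 2)) =
          t * -(t * (‖q ((t : ℂ) * ζ)‖ ^ 2 / (1 - t ^ 2 * ‖q ((t : ℂ) * ζ)‖ ^ 2))) := by ring
      rw [h3] at h1
      exact le_of_mul_le_mul_left h1 ht.1)
    rw [hζ2] at hle
    simp only [neg_re, ofReal_re] at hle
    linarith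
  have hgg1 : ∀ v, g v = v * g1 v := by
    intro v
    have := sub_smul_dslope g 0 v
    rw [hg0, sub_zero, sub_zero, smul_eq_mul] at this
    exact this.symm
  -- second order
  have hg10 : ‖g1 0‖ ≤ 1 := by
    by_contra hgt
    push Not at hgt
    have hpos : 0 < ‖g1 0‖ := by linarith
    obtain ⟨ζ, hζ⟩ := IsAlgClosed.exists_pow_nat_eq (-((starRingEnd ℂ) (g1 0)) / ‖g1 0‖)
      (n := 2) (by norm_num)
    have hζ1 : ‖ζ‖ = 1 := by
      have h1 : ‖ζ‖ ^ 2 = 1 := by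
        rw [← norm_pow, hζ, norm_div, norm_neg, RCLike.norm_conj, Complex.norm_real, norm_norm,
          div_self hpos.ne']
      have h2 : 0 ≤ ‖ζ‖ := norm_nonneg _
      nlinarith
    have hζ2 : ζ ^ 2 * g1 0 = -(‖g1 0‖ : ℂ) := by
      rw [hζ, div_mul_eq_mul_div, neg_mul, mul_comm, Complex.mul_conj, Complex.normSq_eq_norm_sq]
      push_cast
      have : (‖g1 0‖ : ℂ) ≠ 0 := by exact_mod_cast hpos.ne'
      field_simp
    have hl : Tendsto (fun t : ℝ => (ζ ^ 2 * g1 ((t : ℂ) * ζ)).re) (𝓝[>] 0)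
        (𝓝 (ζ ^ 2 * g1 0).re) := by
      have h1 : Tendsto (fun t : ℝ => ζ ^ 2 * g1 ((t : ℂ) * ζ)) (𝓝[>] 0) (𝓝 (ζ ^ 2 * g1 0)) :=
        tendsto_const_nhds.mul (hcg1.tendsto.comp (hray ζ))
      exact (Complex.continuous_re.tendsto _).comp h1
    have hle := le_of_tendsto_of_tendsto (hquot ζ).neg hl (by
      filter_upwards [hev ζ] with t ht
      have h1 := hineq _ ht.2
      rw [hnf ζ hζ1 t ht.1, hhg, hgg1] at h1
      have h2 : ((t : ℂ) * ζ * ((t : ℂ) * ζ * g1 ((t : ℂ) * ζ))).re =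
          t ^ 2 * (ζ ^ 2 * g1 ((t : ℂ) * ζ)).re := by
        have : (t : ℂ) * ζ * ((t : ℂ) * ζ * g1 ((t : ℂ) * ζ)) =
            ((t ^ 2 : ℝ) : ℂ) * (ζ ^ 2 * g1 ((t : ℂ) * ζ)) := by
          push_cast; ring
        rw [this, Complex.re_ofReal_mul]
      rw [h2] at h1
      have h3 : -(t ^ 2 * ‖q ((t : ℂ) * ζ)‖ ^ 2 / (1 - t ^ 2 * ‖q ((t : ℂ) * ζ)‖ ^ 2)) =
          t ^ 2 * -(‖q ((t : ℂ) * ζ)‖ ^ 2 / (1 - t ^ 2 * ‖q ((t : ℂ) * ζ)‖ ^ 2)) := by ring
      rw [h3] at h1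
      exact le_of_mul_le_mul_left h1 (by have := ht.1; positivity))
    rw [hζ2] at hle
    simp only [neg_re, ofReal_re] at hle
    linarith
  -- the second derivative
  have hdh0 : deriv h 0 = 0 := by
    have : g 0 = deriv h 0 := by rw [hg, dslope_same]
    rw [← this, hg0]
  have hdd : deriv (deriv h) 0 = 2 * g1 0 := by
    have h1 : deriv h =ᶠ[𝓝 0] fun v => g v + v * deriv g v := by
      filter_upwards [hBo.mem_nhds h0B] with v hv
      have h2 : HasDerivAt g (deriv g v) v :=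
        (hgd.differentiableAt (hBo.mem_nhds hv)).hasDerivAt
      have h3 : HasDerivAt (fun v => v * g v) (1 * g v + v * deriv g v) v :=
        (hasDerivAt_id v).mul h2
      have h4 : h = fun v => v * g v := funext hhg
      rw [h4]
      have h5 := h3.deriv
      rw [one_mul] at h5
      have h6 : dslope (fun v => v * g v) 0 = g := by rw [← h4]
      exact h5
    rw [h1.deriv_eq]
    have h2 : HasDerivAt g (deriv g 0) 0 := (hgd.differentiableAt (hBo.mem_nhds h0B)).hasDerivAt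
    have h3 : HasDerivAt (deriv g) (deriv (deriv g) 0) 0 :=
      ((hgd.deriv hBo).differentiableAt (hBo.mem_nhds h0B)).hasDerivAt
    have h4 : HasDerivAt (fun v => g v + v * deriv g v)
        (deriv g 0 + (1 * deriv g 0 + 0 * deriv (deriv g) 0)) 0 :=
      h2.add ((hasDerivAt_id (0 : ℂ)).mul h3)
    rw [h4.deriv, hg1, dslope_same]
    ring
  refine ⟨h, hhd, hh0, hdh0, ?_, hexp⟩
  rw [hdd, norm_mul]
  simp only [RCLike.norm_ofNat]
  linarith

end Pool.Agent.Helper57.LC
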